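import Pool.Agent.helper69.LN.Spec

/-! Project LN (MP_069684_lc), row STAR: star forests in an edge set. -/

set_option autoImplicit false

namespace Pool.Agent.LN

open Finset

private theorem STAR_card (r : ℕ) : 2 * Fintype.card (Pr r) ≤ r ^ 2 := by
  classical
  have h1 : Fintype.card (Pr r) =
      ((Finset.univ : Finset (Fin r × Fin r)).filter fun e => e.1 < e.2).card := by
    rw [Fintype.card_subtype]
  have h2 : ((Finset.univ : Finset (Fin r × Fin r)).filter fun e => e.1 < e.2).card =
      ((Finset.univ : Finset (Fin r × Fin r)).filter fun e => e.2 < e.1).card := by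
    refine Finset.card_bij (fun e _ => e.swap) ?_ ?_ ?_
    · intro e he
      rw [Finset.mem_filter] at he ⊢
      exact ⟨Finset.mem_univ _, he.2⟩
    · intro e _ e' _ h
      exact Prod.swap_injective h
    · intro e he
      rw [Finset.mem_filter] at he
      exact ⟨e.swap, by rw [Finset.mem_filter]; exact ⟨Finset.mem_univ _, he.2⟩, Prod.swap_swap e⟩
  have h3 : Disjoint ((Finset.univ : Finset (Fin r × Fin r)).filter fun e => e.1 < e.2)
      ((Finset.univ : Finset (Fin r × Fin r)).filter fun e => e.2 < e.1) := by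
    rw [Finset.disjoint_filter]
    intro e _ h4 h5
    exact absurd h5 (not_lt_of_gt h4)
  have h4 := Finset.card_le_univ
    (((Finset.univ : Finset (Fin r × Fin r)).filter fun e => e.1 < e.2) ∪
      ((Finset.univ : Finset (Fin r × Fin r)).filter fun e => e.2 < e.1))
  rw [Finset.card_union_of_disjoint h3, ← h2, ← h1, Fintype.card_prod, Fintype.card_fin] at h4
  rw [pow_two]
  omega

private theorem STAR_two {M r : ℕ} {U : Finset (Fin M × Fin M)} {P Q : Finset (Fin M)}
    (hPQ : Disjoint P Q) (hcard : Fintype.card (Pr r) ≤ P.card)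
    (hnb : ∀ p ∈ P, ∃ q ∈ Q, (p, q) ∈ U ∨ (q, p) ∈ U) : Nonempty (Star M r U) := by
  classical
  have h1 : Fintype.card (Pr r) ≤ Fintype.card P := by
    rw [Fintype.card_coe]; exact hcard
  obtain ⟨f⟩ := Function.Embedding.nonempty_of_card_le h1
  choose g hgQ hgU using fun p : P => hnb p.1 p.2
  exact ⟨{ leaf := fun e => (f e : Fin M)
           cen := fun e => g (f e)
           inj := fun e e' h => f.injective (Subtype.ext h)
           dis := fun e e' h => by
             have h2 : ((f e : P) : Fin M) ∈ P := (f e).2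
             rw [h] at h2
             exact Finset.disjoint_left.1 hPQ h2 (hgQ (f e'))
           mem := fun e => hgU (f e) }⟩

theorem STAR : STAR_stmt := by
  classical
  intro M r U hU hT
  obtain ⟨T, hTdef⟩ : ∃ T, T = touch U := ⟨_, rfl⟩
  rw [← hTdef] at hT
  have hnbT : ∀ a ∈ T, ∃ b ∈ T, a ≠ b ∧ ((a, b) ∈ U ∨ (b, a) ∈ U) := by
    intro a ha
    rw [hTdef, touch, Finset.mem_union, Finset.mem_image, Finset.mem_image] at ha
    rcases ha with ⟨e, he, rfl⟩ | ⟨e, he, rfl⟩
    · refine ⟨e.2, ?_, (hU e he).ne, Or.inl he⟩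
      rw [hTdef, touch, Finset.mem_union]
      exact Or.inr (Finset.mem_image_of_mem _ he)
    · refine ⟨e.1, ?_, (hU e he).ne', Or.inr he⟩
      rw [hTdef, touch, Finset.mem_union]
      exact Or.inl (Finset.mem_image_of_mem _ he)
  obtain ⟨F, hF⟩ : ∃ F : Finset (Finset (Fin M)), F = T.powerset.filter fun D =>
      ∀ a ∈ T \ D, ∃ b ∈ D, (a, b) ∈ U ∨ (b, a) ∈ U := ⟨_, rfl⟩
  have hFne : F.Nonempty := by
    refine ⟨T, ?_⟩
    rw [hF, Finset.mem_filter, Finset.mem_powerset]
    refine ⟨Finset.Subset.refl _, fun a ha => ?_⟩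
    rw [Finset.sdiff_self] at ha
    exact absurd ha (Finset.notMem_empty a)
  obtain ⟨D, hDF, hDmin⟩ := Finset.exists_min_image F Finset.card hFne
  rw [hF, Finset.mem_filter, Finset.mem_powerset] at hDF
  obtain ⟨hDT, hDdom⟩ := hDF
  -- every vertex of D has a neighbour in T \ D
  have hDnb : ∀ d ∈ D, ∃ b ∈ T \ D, (d, b) ∈ U ∨ (b, d) ∈ U := by
    intro d hd
    by_contra hcon
    push Not at hcon
    have hmem : D.erase d ∈ F := by
      rw [hF, Finset.mem_filter, Finset.mem_powerset]
      refine ⟨(Finset.erase_subset _ _).trans hDT, fun a ha => ?_⟩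
      rw [Finset.mem_sdiff, Finset.mem_erase] at ha
      obtain ⟨haT, haD⟩ := ha
      by_cases had : a = d
      · subst had
        obtain ⟨b, hbT, hab, hbU⟩ := hnbT a haT
        refine ⟨b, ?_, hbU⟩
        rw [Finset.mem_erase]
        refine ⟨hab.symm, ?_⟩
        by_contra hbD
        have h1 := hcon b (Finset.mem_sdiff.2 ⟨hbT, hbD⟩)
        rcases hbU with h2 | h2
        · exact h1.1 h2
        · exact h1.2 h2
      · have haD' : a ∉ D := fun h => haD ⟨had, h⟩
        have haS : a ∈ T \ D := Finset.mem_sdiff.2 ⟨haT, haD'⟩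
        obtain ⟨b, hbD, hbU⟩ := hDdom a haS
        refine ⟨b, ?_, hbU⟩
        rw [Finset.mem_erase]
        refine ⟨?_, hbD⟩
        rintro rfl
        have h1 := hcon a haS
        rcases hbU with h2 | h2
        · exact h1.2 h2
        · exact h1.1 h2
    have h1 := hDmin _ hmem
    have h2 := Finset.card_erase_lt_of_mem hd
    omega
  have hc := STAR_card r
  have hsum : (T \ D).card + D.card = T.card := Finset.card_sdiff_add_card_eq_card hDT
  have hdisj : Disjoint D (T \ D) := Finset.disjoint_sdiff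
  by_cases hle : (T \ D).card ≤ D.card
  · exact STAR_two hdisj (by omega) hDnb
  · exact STAR_two hdisj.symm (by omega) hDdom

end Pool.Agent.LN
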